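import Mathlib
import Pool.Agent.T9h47.SC.CircDef

/-!
# Circuits for the clique problem and Klein four-groups acting on blocks of four vertices
-/

set_option autoImplicit false

namespace Pool.Agent.T9h47.KL

open Finset
open Pool.Agent.T9h47.SC

/-- The elements of `m` blocks; each block has the four elements of `ZMod 2 × ZMod 2`. -/
abbrev Blk (m : ℕ) : Type := Fin m × (ZMod 2 × ZMod 2)

/-- The group of order `4 ^ m` that acts on the blocks: the element `f` adds `f B` in the block `B`. -/
abbrev Kl (m : ℕ) : Type := Fin m → ZMod 2 × ZMod 2

/-- The permutation of the vertices `0, …, n - 1` given by `f`: the blocks are embedded by `β`, the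
vertex `β (B, a)` is moved to `β (B, a + f B)`, all other vertices are fixed. -/
noncomputable def mv {m n : ℕ} (β : Blk m ↪ Fin n) (f : Kl m) : Fin n → Fin n :=
  Function.extend β (fun b => β (b.1, b.2 + f b.1)) id

/-- The graph in which `u` and `v` are adjacent if their images under `f` are adjacent in `H`. -/
noncomputable def shift {m n : ℕ} (β : Blk m ↪ Fin n) (f : Kl m) (H : SimpleGraph (Fin n)) :
    SimpleGraph (Fin n) := H.comap (mv β f)

/-- The input of a circuit for a graph: `b₁` for the edges, `b₀` for the other pairs. -/
noncomputable def graphInput {K : Type} {n : ℕ} (b₀ b₁ : K) (H : SimpleGraph (Fin n)) :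
    Sym2 (Fin n) → K :=
  open Classical in fun e => if e ∈ H.edgeSet then b₁ else b₀

/-- What the gate `g` sees on the input `x`: its own value and, for each role `r`, the multiset of
the values of its children in the role `r`. -/
noncomputable def view {K I : Type} (C : Circuit K I) (g : C.Gate) (x : I → K) :
    K × (ℕ → Multiset K) :=
  (C.val x g, fun r => ((C.kids g).filter (fun p => p.1 = r)).val.map (fun p => C.val x p.2))

/-- The views of the gates of `C` on the images of the graphs under the group: all functions
`H ↦ view g (f H)` on the graphs `H`, where `g` is a gate and `f` is in the group. -/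
def views {K : Type} {m n : ℕ} (β : Blk m ↪ Fin n) (C : Circuit K (Sym2 (Fin n))) (b₀ b₁ : K) :
    Set (SimpleGraph (Fin n) → K × (ℕ → Multiset K)) :=
  {L | ∃ g, ∃ f : Kl m, L = fun H => view C g (graphInput b₀ b₁ (shift β f H))}

/-- The circuit is symmetric under the group: each element extends to an automorphism. -/
def Symm {K : Type} {m n : ℕ} (β : Blk m ↪ Fin n) (C : Circuit K (Sym2 (Fin n))) : Prop :=
  ∀ f : Kl m, ∃ α, C.IsAut (Sym2.map (mv β f)) α

/-- The circuit decides the clique problem: it accepts (the value of the output gate is in `Acc`)
exactly the graphs with a clique of size `k`. -/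
def Decides {K : Type} {n : ℕ} (C : Circuit K (Sym2 (Fin n))) (b₀ b₁ : K) (Acc : Set K) (k : ℕ) :
    Prop :=
  ∀ H : SimpleGraph (Fin n), C.val (graphInput b₀ b₁ H) C.out ∈ Acc ↔ ¬ H.CliqueFree k

/-- the conjunction of all values -/
noncomputable def andOp (v : ℕ → Multiset Bool) : Bool :=
  open Classical in decide (∀ r, false ∉ v r)

/-- the disjunction of all values -/
noncomputable def orOp (v : ℕ → Multiset Bool) : Bool :=
  open Classical in decide (∃ r, true ∈ v r)

/-- the negation of a single value -/
noncomputable def notOp (v : ℕ → Multiset Bool) : Bool :=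
  open Classical in decide (∃ r, false ∈ v r)

/-- A Boolean circuit: all gates which are not input gates are AND gates, OR gates or NOT gates (with
one child). -/
def IsBoolean {I : Type} (C : Circuit Bool I) : Prop :=
  ∀ g f, C.lab g = Sum.inr f → f = andOp ∨ f = orOp ∨ (f = notOp ∧ (C.kids g).card = 1)

end Pool.Agent.T9h47.KL
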