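import Mathlib
import Pool.Agent.T9h47.KL.Defs
import Pool.Agent.T9h47.SE.Twist

/-!
# The pieces
-/

set_option autoImplicit false

namespace Pool.Agent.T9h47.KL

open Finset
open Pool.Agent.T9h47.SC Pool.Agent.T9h47.SE

/-- the three nonzero linear functionals on a block -/
def ev (i : Fin 3) (a : ZMod 2 × ZMod 2) : ZMod 2 :=
  if i = 0 then a.1 else if i = 1 then a.2 else a.1 + a.2

/-- the slots: block and functional; there are `6 l` of them -/
abbrev Slot (l : ℕ) : Type := Fin (2 * l) × Fin 3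

/-- the random matching: `3 l` equations, each with two slots -/
abbrev Mat (l : ℕ) : Type := (Fin (3 * l) × Bool) ≃ Slot l

/-- the coordinates of the group -/
def dec {l : ℕ} (t : Fin (2 * l * 2) → ZMod 2) : Kl (2 * l) :=
  fun B => (t (finProdFinEquiv (B, 0)), t (finProdFinEquiv (B, 1)))

/-- the coordinate vector of a slot: `∑ v, α s v * t v = ev s.2 (dec t s.1)` -/
def al {l : ℕ} (s : Slot l) (v : Fin (2 * l * 2)) : ZMod 2 :=
  if (finProdFinEquiv.symm v).1 = s.1 then
    (if s.2 = 2 then 1 else if s.2.val = (finProdFinEquiv.symm v).2.val then 1 else 0)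
  else 0

/-- the row of an equation -/
def row {l : ℕ} (π : Mat l) (e : Fin (3 * l)) : Finset (Fin (2 * l * 2)) :=
  univ.filter fun v => al (π (e, false)) v + al (π (e, true)) v = 1

/-- the two chosen vertices satisfy all equations with both slots in their blocks -/
def Ok {l : ℕ} (π : Mat l) (c : Fin (3 * l) → ZMod 2) (u v : Blk (2 * l)) : Prop :=
  ∀ e, ((π (e, false)).1 = u.1 ∨ (π (e, false)).1 = v.1) →
    ((π (e, true)).1 = u.1 ∨ (π (e, true)).1 = v.1) →
    ev (π (e, false)).2 (if (π (e, false)).1 = u.1 then u.2 else v.2) +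
      ev (π (e, true)).2 (if (π (e, true)).1 = u.1 then u.2 else v.2) = c e

/-- the graph: the vertices in `U` are adjacent to each other and to all block vertices; two block
vertices are adjacent if they are in different blocks and satisfy the equations between them -/
def Gr {l n : ℕ} (β : Blk (2 * l) ↪ Fin n) (U : Finset (Fin n)) (π : Mat l)
    (c : Fin (3 * l) → ZMod 2) : SimpleGraph (Fin n) where
  Adj x y := x ≠ y ∧ ((x ∈ U ∧ y ∈ U) ∨ (x ∈ U ∧ ∃ v, β v = y) ∨ (y ∈ U ∧ ∃ v, β v = x) ∨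
    ∃ u v, β u = x ∧ β v = y ∧ u.1 ≠ v.1 ∧ Ok π c u v ∧ Ok π c v u)
  symm := ⟨by
    rintro x y ⟨h, h'⟩
    refine ⟨h.symm, ?_⟩
    rcases h' with h' | h' | h' | ⟨u, v, h1, h2, h3, h4, h5⟩
    · exact Or.inl ⟨h'.2, h'.1⟩
    · exact Or.inr (Or.inr (Or.inl h'))
    · exact Or.inr (Or.inl h')
    · exact Or.inr (Or.inr (Or.inr ⟨v, u, h2, h1, h3.symm, h5, h4⟩))⟩
  loopless := ⟨fun _ h => h.1 rfl⟩

/-- (K1) counting the matchings for which a vector of middle weight is in the subspace `W`.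
Proof: put `Y s = y (π⁻¹ s).1` for the slots `s`; then `tr (row π) y = ∑ s, Y s * al s`, which maps at
most `4 ^ l` vectors `Y` to each vector (the kernel consists of the `Y` which are constant on the
blocks). For given `y` of weight `j` and given `Y` of weight `2 j` the number of `π` is
`(6 l)! / choose (6 l) (2 j)`, and `choose (6 l) (2 j) ≥ choose (3 l) j ^ 2`,
`choose (3 l) j ≥ choose (3 l) l` for `l ≤ j ≤ 2 l`. -/
def StCount : Prop :=
  ∀ (l : ℕ) (W : Submodule (ZMod 2) (Fin (2 * l * 2) → ZMod 2)), 1 ≤ l →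
    Nat.card {π : Mat l // ∃ y : Fin (3 * l) → ZMod 2, tr (row π) y ∈ W ∧
      l ≤ (univ.filter fun e => y e ≠ 0).card ∧ (univ.filter fun e => y e ≠ 0).card ≤ 2 * l} *
      (3 * l).choose l ≤ (6 * l).factorial * 4 ^ l * Nat.card W

/-- (K2) cliques and solutions -/
def StClique : Prop :=
  ∀ (l n k : ℕ) (β : Blk (2 * l) ↪ Fin n) (U : Finset (Fin n)) (π : Mat l)
    (c : Fin (3 * l) → ZMod 2), 1 ≤ l → 2 * l ≤ k → U.card = k - 2 * l → (∀ v, β v ∉ U) →
    (¬ (Gr β U π c).CliqueFree k ↔ ∃ a : Kl (2 * l), ∀ e,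
      ev (π (e, false)).2 (a (π (e, false)).1) + ev (π (e, true)).2 (a (π (e, true)).1) = c e)

/-- (K3) Boolean circuits can be made symmetric: take the OR of the `16 ^ l` images of the circuit -/
def StConv : Prop :=
  ∀ (m n k : ℕ) (β : Blk m ↪ Fin n) (C : Circuit Bool (Sym2 (Fin n))), IsBoolean C →
    Decides C false true {true} k →
    ∃ C' : Circuit Bool (Sym2 (Fin n)), IsBoolean C' ∧ Decides C' false true {true} k ∧
      Symm β C' ∧ Nat.card C'.Gate ≤ 4 ^ m * Nat.card C.Gate + 1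

/-- (K4) the number of views -/
def StViews : Prop :=
  ∀ (K : Type) (m n : ℕ) (β : Blk m ↪ Fin n) (C : Circuit K (Sym2 (Fin n))) (b₀ b₁ : K),
    (views β C b₀ b₁).Finite ∧ (views β C b₀ b₁).ncard ≤ 4 ^ m * Nat.card C.Gate ∧
      (Symm β C → (views β C b₀ b₁).ncard ≤ Nat.card C.Gate)

/-- (K5) the gauge transformations -/
def StGauge : Prop :=
  ∀ (l n : ℕ) (β : Blk (2 * l) ↪ Fin n) (U : Finset (Fin n)) (π : Mat l)
    (c : Fin (3 * l) → ZMod 2) (t : Fin (2 * l * 2) → ZMod 2), (∀ v, β v ∉ U) →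
    shift β (dec t) (Gr β U π c) = Gr β U π (c + AA (row π) t) ∧
    (∀ e, AA (row π) t e = ev (π (e, false)).2 (dec t (π (e, false)).1) +
      ev (π (e, true)).2 (dec t (π (e, true)).1)) ∧
    tr (row π) (fun _ => 1) = 0

end Pool.Agent.T9h47.KL
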