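import Mathlib
import Pool.Agent.T9h47.KL.Spec

/-!
# Gauge transformations
-/

set_option autoImplicit false

namespace Pool.Agent.T9h47.KL

open Finset
open Pool.Agent.T9h47.SC Pool.Agent.T9h47.SE

theorem z2 (a : ZMod 2) : a = 0 ∨ a = 1 := by
  revert a; decide

theorem z2_ite (a b : ZMod 2) : (if a = 1 then b else 0) = a * b := by
  revert a b; decide

theorem al_dot {l : ℕ} (s : Slot l) (t : Fin (2 * l * 2) → ZMod 2) :
    ∑ v, al s v * t v = ev s.2 (dec t s.1) := by
  rw [← Equiv.sum_comp (finProdFinEquiv : Fin (2 * l) × Fin 2 ≃ Fin (2 * l * 2)),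
    Fintype.sum_prod_type]
  rw [sum_eq_single s.1]
  · rw [Fin.sum_univ_two]
    unfold al ev dec
    simp only [Equiv.symm_apply_apply, if_true]
    obtain ⟨B, i⟩ := s
    fin_cases i <;> simp
  · intro B _ hB
    apply sum_eq_zero
    intro j _
    unfold al
    rw [Equiv.symm_apply_apply, if_neg hB, zero_mul]
  · intro h
    exact absurd (mem_univ _) h

theorem mem_row {l : ℕ} (π : Mat l) (e : Fin (3 * l)) (v : Fin (2 * l * 2)) :
    v ∈ row π e ↔ al (π (e, false)) v + al (π (e, true)) v = 1 := by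
  unfold row
  rw [mem_filter]
  exact ⟨fun h => h.2, fun h => ⟨mem_univ _, h⟩⟩

theorem AA_row {l : ℕ} (π : Mat l) (t : Fin (2 * l * 2) → ZMod 2) (e : Fin (3 * l)) :
    AA (row π) t e = ev (π (e, false)).2 (dec t (π (e, false)).1) +
      ev (π (e, true)).2 (dec t (π (e, true)).1) := by
  rw [AA_apply, ← al_dot, ← al_dot, ← sum_add_distrib]
  unfold row
  rw [sum_filter]
  refine sum_congr rfl fun v _ => ?_
  rw [z2_ite, add_mul]

theorem tr_row {l : ℕ} (π : Mat l) (y : Fin (3 * l) → ZMod 2) (v : Fin (2 * l * 2)) :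
    tr (row π) y v = ∑ s : Slot l, y (π.symm s).1 * al s v := by
  rw [← Equiv.sum_comp π, Fintype.sum_prod_type]
  unfold tr
  refine sum_congr rfl fun e _ => ?_
  rw [Fintype.sum_bool, Equiv.symm_apply_apply, Equiv.symm_apply_apply]
  have h : (if v ∈ row π e then y e else 0) =
      if al (π (e, false)) v + al (π (e, true)) v = 1 then y e else 0 := by
    simp only [mem_row]
  rw [h, z2_ite]
  show _ = y e * _ + y e * _
  ring

theorem tr_one {l : ℕ} (π : Mat l) : tr (row π) (fun _ => 1) = 0 := by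
  funext v
  rw [tr_row]
  obtain ⟨⟨B, j⟩, rfl⟩ := (finProdFinEquiv : Fin (2 * l) × Fin 2 ≃ Fin (2 * l * 2)).surjective v
  rw [Fintype.sum_prod_type, sum_eq_single B]
  · rw [Fin.sum_univ_three]
    unfold al
    simp only [Equiv.symm_apply_apply, if_true]
    fin_cases j <;> simp <;> decide
  · intro B' _ hB
    apply sum_eq_zero
    intro i _
    unfold al
    rw [Equiv.symm_apply_apply, if_neg (Ne.symm hB), mul_zero]
  · intro h
    exact absurd (mem_univ _) h

section shift

variable {m n : ℕ} (β : Blk m ↪ Fin n)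

theorem mv_blk (f : Kl m) (b : Blk m) : mv β f (β b) = β (b.1, b.2 + f b.1) :=
  β.injective.extend_apply _ _ _

theorem mv_out (f : Kl m) (x : Fin n) (hx : ¬ ∃ b, β b = x) : mv β f x = x :=
  Function.extend_apply' _ _ _ hx

theorem mv_mv (f f' : Kl m) (x : Fin n) : mv β f (mv β f' x) = mv β (f + f') x := by
  by_cases hx : ∃ b, β b = x
  · obtain ⟨b, rfl⟩ := hx
    rw [mv_blk, mv_blk, mv_blk]
    show β (b.1, b.2 + f' b.1 + f b.1) = β (b.1, b.2 + (f b.1 + f' b.1))
    rw [add_assoc, add_comm (f' b.1)]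
  · rw [mv_out β f' x hx, mv_out β f x hx, mv_out β _ x hx]

theorem mv_zero (x : Fin n) : mv β (0 : Kl m) x = x := by
  by_cases hx : ∃ b, β b = x
  · obtain ⟨b, rfl⟩ := hx
    rw [mv_blk]
    show β (b.1, b.2 + 0) = β b
    rw [add_zero]
  · exact mv_out β _ x hx

theorem kl_self (f : Kl m) : f + f = 0 := by
  funext B
  have : ∀ a : ZMod 2 × ZMod 2, a + a = 0 := by decide
  exact this _

theorem mv_self (f : Kl m) (x : Fin n) : mv β f (mv β f x) = x := by
  rw [mv_mv, kl_self, mv_zero]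

theorem shift_add (f f' : Kl m) (H : SimpleGraph (Fin n)) :
    shift β (f + f') H = shift β f (shift β f' H) := by
  ext x y
  show H.Adj (mv β (f + f') x) (mv β (f + f') y) ↔ H.Adj (mv β f' (mv β f x)) (mv β f' (mv β f y))
  rw [mv_mv, mv_mv, add_comm f']

theorem shift_zero (H : SimpleGraph (Fin n)) : shift β (0 : Kl m) H = H := by
  ext x y
  show H.Adj (mv β 0 x) (mv β 0 y) ↔ H.Adj x y
  rw [mv_zero, mv_zero]

end shift

theorem dec_add {l : ℕ} (t t' : Fin (2 * l * 2) → ZMod 2) : dec (t + t') = dec t + dec t' := rfl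

theorem dec_zero {l : ℕ} : dec (0 : Fin (2 * l * 2) → ZMod 2) = 0 := rfl

theorem dec_surj {l : ℕ} (f : Kl (2 * l)) : ∃ t, dec t = f := by
  refine ⟨fun v => if (finProdFinEquiv.symm v).2 = 0 then (f (finProdFinEquiv.symm v).1).1
    else (f (finProdFinEquiv.symm v).1).2, ?_⟩
  funext B
  unfold dec
  simp only [Equiv.symm_apply_apply]
  simp

theorem ev_add (i : Fin 3) (a b : ZMod 2 × ZMod 2) : ev i (a + b) = ev i a + ev i b := by
  revert i a b
  decide

theorem Ok_shift {l : ℕ} (π : Mat l) (c : Fin (3 * l) → ZMod 2) (t : Fin (2 * l * 2) → ZMod 2)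
    (u v : Blk (2 * l)) (huv : u.1 ≠ v.1) :
    Ok π c (u.1, u.2 + dec t u.1) (v.1, v.2 + dec t v.1) ↔ Ok π (c + AA (row π) t) u v := by
  unfold Ok
  refine forall_congr' fun e => ?_
  refine imp_congr_right fun h1 => imp_congr_right fun h2 => ?_
  have key : ∀ s : Slot l, (s.1 = u.1 ∨ s.1 = v.1) →
      ev s.2 (if s.1 = u.1 then u.2 + dec t u.1 else v.2 + dec t v.1) =
        ev s.2 (if s.1 = u.1 then u.2 else v.2) + ev s.2 (dec t s.1) := by
    intro s hs
    by_cases h : s.1 = u.1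
    · rw [if_pos h, if_pos h, ev_add, h]
    · rw [if_neg h, if_neg h, ev_add, hs.resolve_left h]
  have h3 := key (π (e, false)) h1
  have h4 := key (π (e, true)) h2
  show ev (π (e, false)).2 (if (π (e, false)).1 = u.1 then u.2 + dec t u.1
      else v.2 + dec t v.1) + ev (π (e, true)).2 (if (π (e, true)).1 = u.1 then u.2 + dec t u.1
      else v.2 + dec t v.1) = c e ↔ _ = c e + AA (row π) t e
  rw [h3, h4, AA_row]
  generalize ev (π (e, false)).2 (if (π (e, false)).1 = u.1 then u.2 else v.2) = p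
  generalize ev (π (e, true)).2 (if (π (e, true)).1 = u.1 then u.2 else v.2) = q
  generalize ev (π (e, false)).2 (dec t (π (e, false)).1) = p'
  generalize ev (π (e, true)).2 (dec t (π (e, true)).1) = q'
  generalize c e = r
  revert p q p' q' r
  decide

theorem shift_Gr {l n : ℕ} (β : Blk (2 * l) ↪ Fin n) (U : Finset (Fin n)) (π : Mat l)
    (c : Fin (3 * l) → ZMod 2) (t : Fin (2 * l * 2) → ZMod 2) (hU : ∀ v, β v ∉ U) :
    shift β (dec t) (Gr β U π c) = Gr β U π (c + AA (row π) t) := by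
  have hmU : ∀ x, mv β (dec t) x ∈ U ↔ x ∈ U := by
    intro x
    by_cases hx : ∃ b, β b = x
    · obtain ⟨b, rfl⟩ := hx
      rw [mv_blk]
      exact ⟨fun h => absurd h (hU _), fun h => absurd h (hU _)⟩
    · rw [mv_out β _ x hx]
  have hmB : ∀ x, (∃ v, β v = mv β (dec t) x) ↔ ∃ v, β v = x := by
    intro x
    by_cases hx : ∃ b, β b = x
    · obtain ⟨b, rfl⟩ := hx
      rw [mv_blk]
      exact ⟨fun _ => ⟨b, rfl⟩, fun _ => ⟨_, rfl⟩⟩
    · rw [mv_out β _ x hx]
  have hinj : ∀ x y, mv β (dec t) x ≠ mv β (dec t) y ↔ x ≠ y := by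
    intro x y
    constructor
    · intro h h'
      exact h (congrArg _ h')
    · intro h h'
      apply h
      rw [← mv_self β (dec t) x, ← mv_self β (dec t) y, h']
  ext x y
  show (mv β (dec t) x ≠ mv β (dec t) y ∧ _) ↔ (x ≠ y ∧ _)
  rw [hinj, hmU, hmU, hmB, hmB]
  refine and_congr_right fun _ => or_congr_right (or_congr_right (or_congr_right ?_))
  constructor
  · rintro ⟨u, v, h1, h2, h3, h4, h5⟩
    have hx : β (u.1, u.2 + dec t u.1) = x := by
      rw [← mv_self β (dec t) x, ← h1, mv_blk]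
    have hy : β (v.1, v.2 + dec t v.1) = y := by
      rw [← mv_self β (dec t) y, ← h2, mv_blk]
    refine ⟨(u.1, u.2 + dec t u.1), (v.1, v.2 + dec t v.1), hx, hy, h3, ?_, ?_⟩
    · rw [← Ok_shift π c t (u.1, u.2 + dec t u.1) (v.1, v.2 + dec t v.1) h3]
      have e1 : ((u.1, u.2 + dec t u.1 + dec t u.1) : Blk (2 * l)) = u := by
        have : ∀ a b : ZMod 2 × ZMod 2, a + b + b = a := by decide
        rw [this]
      have e2 : ((v.1, v.2 + dec t v.1 + dec t v.1) : Blk (2 * l)) = v := by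
        have : ∀ a b : ZMod 2 × ZMod 2, a + b + b = a := by decide
        rw [this]
      show Ok π c (u.1, u.2 + dec t u.1 + dec t u.1) (v.1, v.2 + dec t v.1 + dec t v.1)
      rw [e1, e2]
      exact h4
    · rw [← Ok_shift π c t (v.1, v.2 + dec t v.1) (u.1, u.2 + dec t u.1) h3.symm]
      have e1 : ((u.1, u.2 + dec t u.1 + dec t u.1) : Blk (2 * l)) = u := by
        have : ∀ a b : ZMod 2 × ZMod 2, a + b + b = a := by decide
        rw [this]
      have e2 : ((v.1, v.2 + dec t v.1 + dec t v.1) : Blk (2 * l)) = v := by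
        have : ∀ a b : ZMod 2 × ZMod 2, a + b + b = a := by decide
        rw [this]
      show Ok π c (v.1, v.2 + dec t v.1 + dec t v.1) (u.1, u.2 + dec t u.1 + dec t u.1)
      rw [e1, e2]
      exact h5
  · rintro ⟨u, v, rfl, rfl, h3, h4, h5⟩
    exact ⟨_, _, (mv_blk β (dec t) u).symm, (mv_blk β (dec t) v).symm, h3,
      (Ok_shift π c t u v h3).2 h4, (Ok_shift π c t v u h3.symm).2 h5⟩

end Pool.Agent.T9h47.KL
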